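import Pool.Agent.H159.BC.Main

namespace Pool.Agent.Results.MP_aa43e9_co.SelfComplementary

open Pool.Agent.H159.BC

/-- The bull: vertices `a = 0`, `b = 1`, `c = 2`, `d = 3`, `e = 4` and edges
`ab, bc, ca, ad, be`. -/
def bull : SimpleGraph (Fin 5) :=
  SimpleGraph.fromRel
    (fun i j => (i, j) ∈ ([(0, 1), (1, 2), (2, 0), (0, 3), (1, 4)] : List (Fin 5 × Fin 5)))

instance : DecidableRel bull.Adj := fun a b => by
  unfold bull; rw [SimpleGraph.fromRel_adj]; infer_instance

/-- `S` is a set of five vertices whose induced subgraph is self-complementary; more precisely it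
is the 5-cycle or the bull. -/
def Good {V : Type*} (G : SimpleGraph V) (S : Finset V) : Prop :=
  S.card = 5 ∧ Nonempty (G.induce (S : Set V) ≃g (G.induce (S : Set V))ᶜ) ∧
    (Nonempty (G.induce (S : Set V) ≃g SimpleGraph.cycleGraph 5) ∨
      Nonempty (G.induce (S : Set V) ≃g bull))

def isoCompl {A C : Type*} {G : SimpleGraph A} {H : SimpleGraph C} (e : G ≃g H) : Gᶜ ≃g Hᶜ where
  toEquiv := e.toEquiv
  map_rel_iff' := by
    intro a b
    simp only [SimpleGraph.compl_adj]
    have h1 : (e.toEquiv a ≠ e.toEquiv b) ↔ a ≠ b := e.toEquiv.injective.ne_iff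
    have h2 : H.Adj (e.toEquiv a) (e.toEquiv b) ↔ G.Adj a b := e.map_adj_iff
    rw [h1, h2]

theorem c5_self : Nonempty (SimpleGraph.cycleGraph 5 ≃g (SimpleGraph.cycleGraph 5)ᶜ) := by
  refine ⟨⟨⟨fun i => 2 * i, fun i => 3 * i, by decide, by decide⟩, ?_⟩⟩
  decide

theorem bull_self : Nonempty (bull ≃g bullᶜ) := by
  refine ⟨⟨⟨![3, 4, 2, 1, 0], ![4, 3, 2, 0, 1], by decide, by decide⟩, ?_⟩⟩
  decide

theorem good_of {V : Type*} (G : SimpleGraph V) (H : SimpleGraph (Fin 5)) (f : Fin 5 → V)
    (hf : Function.Injective f) (hadj : ∀ i j, G.Adj (f i) (f j) ↔ H.Adj i j)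
    (hself : Nonempty (H ≃g Hᶜ)) :
    ∃ S : Finset V, S.card = 5 ∧ Nonempty (G.induce (S : Set V) ≃g (G.induce (S : Set V))ᶜ) ∧
      Nonempty (G.induce (S : Set V) ≃g H) := by
  classical
  have hmem : ∀ i, f i ∈ ((Finset.univ.map ⟨f, hf⟩ : Finset V) : Set V) := by
    intro i; simp
  let e0 : Fin 5 ≃ ((Finset.univ.map ⟨f, hf⟩ : Finset V) : Set V) :=
    Equiv.ofBijective (fun i => ⟨f i, hmem i⟩) (by
      constructor
      · intro i j hij
        exact hf (congrArg Subtype.val hij)
      · rintro ⟨x, hx⟩
        simp only [Finset.coe_map, Function.Embedding.coeFn_mk, Finset.coe_univ,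
          Set.image_univ, Set.mem_range] at hx
        obtain ⟨i, hi⟩ := hx
        exact ⟨i, Subtype.ext hi⟩)
  let e1 : H ≃g G.induce ((Finset.univ.map ⟨f, hf⟩ : Finset V) : Set V) :=
    { toEquiv := e0
      map_rel_iff' := by
        intro a b
        exact hadj a b }
  obtain ⟨s⟩ := hself
  refine ⟨Finset.univ.map ⟨f, hf⟩, by simp, ⟨?_⟩, ⟨e1.symm⟩⟩
  exact (e1.symm.trans s).trans (isoCompl e1)

theorem two_tight {V : Type*} [Fintype V] [Nontrivial V] (G : SimpleGraph V)
    (h1 : ∀ u v, u ≠ v → ¬ G.Adj u v → ∃ w, G.Adj w u ∧ G.Adj w v)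
    (h2 : ∀ u v, G.Adj u v → ∃ w, w ≠ u ∧ w ≠ v ∧ ¬ G.Adj w u ∧ ¬ G.Adj w v) :
    ∃ S : Finset V, Good G S := by
  classical
  by_contra hno
  have hcfg : Cfg (fun a b => G.Adj a b) (fun a b => a ≠ b ∧ ¬ G.Adj a b) := by
    refine ⟨fun h => h.symm, fun h => ⟨h.1.symm, fun hh => h.2 hh.symm⟩, fun h h' => h'.2 h,
      fun {a b} hab => ?_, fun h => G.irrefl h, fun h => h.1 rfl, ?_, ?_⟩
    · by_cases h : G.Adj a b
      · exact Or.inl h
      · exact Or.inr ⟨hab, h⟩
    · intro a b c d e ab bc cd de ea ac bd ce da eb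
      apply hno
      obtain ⟨S, hS1, hS2, hS3⟩ := good_of G (SimpleGraph.cycleGraph 5) ![a, b, c, d, e]
        (by
          have := ab.ne; have := bc.ne; have := cd.ne; have := de.ne; have := ea.ne
          have := ac.1; have := bd.1; have := ce.1; have := da.1; have := eb.1
          intro i j hij
          fin_cases i <;> fin_cases j <;> simp_all)
        (by
          have nac := ac.2; have nbd := bd.2; have nce := ce.2; have nda := da.2
          have neb := eb.2
          have nca : ¬ G.Adj c a := fun h => nac h.symm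
          have ndb : ¬ G.Adj d b := fun h => nbd h.symm
          have nec : ¬ G.Adj e c := fun h => nce h.symm
          have nad : ¬ G.Adj a d := fun h => nda h.symm
          have nbe : ¬ G.Adj b e := fun h => neb h.symm
          have ba := ab.symm; have cb := bc.symm; have dc := cd.symm; have ed := de.symm
          have ae := ea.symm
          have key : ∀ i j : Fin 5, (SimpleGraph.cycleGraph 5).Adj i j ↔
              (j = i + 1 ∨ i = j + 1) := by decide
          intro i j
          rw [key]
          fin_cases i <;> fin_cases j <;> simp_all)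
        c5_self
      exact ⟨S, hS1, hS2, Or.inl hS3⟩
    · intro a x y b z ax xy yb xz yz ay ab az xb zb
      apply hno
      obtain ⟨S, hS1, hS2, hS3⟩ := good_of G bull ![x, y, z, a, b]
        (by
          have := ax.ne; have := xy.ne; have := yb.ne; have := xz.ne; have := yz.ne
          have := ay.1; have := ab.1; have := az.1; have := xb.1; have := zb.1
          intro i j hij
          fin_cases i <;> fin_cases j <;> simp_all)
        (by
          have nay := ay.2; have nab := ab.2; have naz := az.2; have nxb := xb.2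
          have nzb := zb.2
          have nya : ¬ G.Adj y a := fun h => nay h.symm
          have nba : ¬ G.Adj b a := fun h => nab h.symm
          have nza : ¬ G.Adj z a := fun h => naz h.symm
          have nbx : ¬ G.Adj b x := fun h => nxb h.symm
          have nbz : ¬ G.Adj b z := fun h => nzb h.symm
          have xa := ax.symm; have yx := xy.symm; have bY := yb.symm; have zx := xz.symm
          have zy := yz.symm
          have key : ∀ i j : Fin 5, bull.Adj i j ↔
              ((i, j) ∈ ([(0, 1), (1, 2), (2, 0), (0, 3), (1, 4), (1, 0), (2, 1), (0, 2), (3, 0),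
                (4, 1)] : List (Fin 5 × Fin 5))) := by decide
          intro i j
          rw [key]
          fin_cases i <;> fin_cases j <;> simp_all)
        bull_self
      exact ⟨S, hS1, hS2, Or.inr hS3⟩
  refine main hcfg ?_ ?_
  · intro x y hxy
    obtain ⟨w, w1, w2, w3, w4⟩ := h2 x y hxy
    exact ⟨w, ⟨w1, w3⟩, ⟨w2, w4⟩⟩
  · intro x y hxy
    exact h1 x y hxy.1 hxy.2

theorem regular {V : Type*} [Fintype V] (G : SimpleGraph V) [DecidableRel G.Adj] (k : ℕ)
    (hk : 0 < k) (hV : Fintype.card V = 2 * k + 1) (hG : G.IsRegularOfDegree k) :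
    ∃ S : Finset V, Good G S := by
  classical
  have : Nontrivial V := Fintype.one_lt_card_iff_nontrivial.1 (by omega)
  refine two_tight G ?_ ?_
  · intro u v huv hnadj
    by_contra hcon
    push Not at hcon
    have hdisj : Disjoint (G.neighborFinset u) (G.neighborFinset v) := by
      rw [Finset.disjoint_left]
      intro w hw hw'
      rw [SimpleGraph.mem_neighborFinset] at hw hw'
      exact hcon w hw.symm hw'.symm
    have hsub : G.neighborFinset u ∪ G.neighborFinset v ⊆ Finset.univ \ {u, v} := by
      intro w hw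
      simp only [Finset.mem_sdiff, Finset.mem_univ, true_and, Finset.mem_insert,
        Finset.mem_singleton, not_or]
      rcases Finset.mem_union.1 hw with hh | hh
      · rw [SimpleGraph.mem_neighborFinset] at hh
        exact ⟨hh.ne', fun e => hnadj (e ▸ hh)⟩
      · rw [SimpleGraph.mem_neighborFinset] at hh
        exact ⟨fun e => hnadj (e ▸ hh.symm), hh.ne'⟩
    have h1 := Finset.card_le_card hsub
    rw [Finset.card_union_of_disjoint hdisj, SimpleGraph.card_neighborFinset_eq_degree,
      SimpleGraph.card_neighborFinset_eq_degree, hG u, hG v,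
      Finset.card_sdiff_of_subset (Finset.subset_univ _), Finset.card_univ, hV,
      Finset.card_pair huv] at h1
    omega
  · intro u v huv
    by_contra hcon
    push Not at hcon
    have hsub : (Finset.univ : Finset V) ⊆ G.neighborFinset u ∪ G.neighborFinset v := by
      intro w _
      rw [Finset.mem_union, SimpleGraph.mem_neighborFinset, SimpleGraph.mem_neighborFinset]
      by_cases hwu : w = u
      · subst hwu; exact Or.inr huv.symm
      by_cases hwv : w = v
      · subst hwv; exact Or.inl huv
      by_cases hw : G.Adj w u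
      · exact Or.inl hw.symm
      · exact Or.inr (hcon w hwu hwv hw).symm
    have h1 := Finset.card_le_card hsub
    have h2 := Finset.card_union_le (G.neighborFinset u) (G.neighborFinset v)
    rw [SimpleGraph.card_neighborFinset_eq_degree, SimpleGraph.card_neighborFinset_eq_degree,
      hG u, hG v] at h2
    rw [Finset.card_univ, hV] at h1
    omega

universe w

/-- Question Q1 (first part), and a stronger statement (second part). -/
theorem result :
    (∀ (V : Type w) [Fintype V] (G : SimpleGraph V) [DecidableRel G.Adj] (k : ℕ), 0 < k →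
      Fintype.card V = 2 * k + 1 → G.IsRegularOfDegree k →
      ∃ S : Finset V, S.card = 5 ∧
        Nonempty (G.induce (S : Set V) ≃g (G.induce (S : Set V))ᶜ) ∧
        (Nonempty (G.induce (S : Set V) ≃g SimpleGraph.cycleGraph 5) ∨
          Nonempty (G.induce (S : Set V) ≃g bull))) ∧
    (∀ (V : Type w) [Fintype V] [Nontrivial V] (G : SimpleGraph V),
      (∀ u v, u ≠ v → ¬ G.Adj u v → ∃ x, G.Adj x u ∧ G.Adj x v) →
      (∀ u v, G.Adj u v → ∃ x, x ≠ u ∧ x ≠ v ∧ ¬ G.Adj x u ∧ ¬ G.Adj x v) →
      ∃ S : Finset V, S.card = 5 ∧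
        Nonempty (G.induce (S : Set V) ≃g (G.induce (S : Set V))ᶜ) ∧
        (Nonempty (G.induce (S : Set V) ≃g SimpleGraph.cycleGraph 5) ∨
          Nonempty (G.induce (S : Set V) ≃g bull))) :=
  ⟨fun _ _ G _ k hk hV hG => regular G k hk hV hG, fun _ _ _ G h1 h2 => two_tight G h1 h2⟩

end Pool.Agent.Results.MP_aa43e9_co.SelfComplementary
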